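import Pool.Agent.H4.NS.Key

set_option autoImplicit false

/-!
Route A, (6) and (7): the elements `k(y,x) = (L_y R_x⁻¹)²` for involutions `x`, `y`.

(6) `rho = D_y D_x`, `rho* = L_x rho L_x⁻¹ = L_y rho L_y⁻¹ = D_{xy} J`; `p = x \ y`; `z_x p = p⁻¹`;
`kap = L_y⁻¹ L_x L_p` fixes `e`, `x`; `R_p = rho L_p`, so `rho p = p`, `rho` commutes with `L_p`; so `kap`
commutes with `rho`, so with `D_y`: `kap y = y`, `kap p = p`, `y p⁻¹ = x`.
(7) `k(x,u) = 1` for `u = c x`; `k(z_s x, x) = 1`.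
-/

namespace ALoop

open Equiv

variable {Q : Type*} {G : Subgroup (Perm Q)} {L : Q → Perm Q} {J : Perm Q} {e : Q}

namespace AL

theorem RxJ (h : AL G L J e) {x : Q} (hJx : J x = x) (q : Q) : (J * L x * J) q = L q x := by
  have := h.R_apply q x
  rwa [hJx] at this

theorem D_Lmul (h : AL G L J e) (q r : Q) : L q * D L J r * (L q)⁻¹ = D L J (L q r) :=
  h.D_conj (h.memL q) r

/-- `rho* = D_{xy} J` -/
theorem rho_star (h : AL G L J e) {x y : Q} (hJx : J x = x) :
    L x * (D L J y * D L J x) * (L x)⁻¹ = D L J (L x y) * J := by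
  have h1 := h.D_Lmul x y
  have h2 := h.D_Lmul x x
  rw [h.LxLx hJx, h.D_e] at h2
  rw [← h1]
  calc L x * (D L J y * D L J x) * (L x)⁻¹
      = L x * D L J y * (L x)⁻¹ * (L x * D L J x * (L x)⁻¹) := by group
    _ = L x * D L J y * (L x)⁻¹ * J := by rw [h2]

theorem rho_star' (h : AL G L J e) {x y : Q} (hJx : J x = x) (hJy : J y = y) :
    L y * (D L J y * D L J x) * (L y)⁻¹ = D L J (L x y) * J := by
  have h1 := h.D_Lmul y x
  have h2 := h.D_Lmul y y
  rw [h.LxLx hJy, h.D_e] at h2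
  have h3 : L y x = J (L x y) := by rw [h.aaip, hJx, hJy]
  rw [h3, ← h.D_J] at h1
  calc L y * (D L J y * D L J x) * (L y)⁻¹
      = L y * D L J y * (L y)⁻¹ * (L y * D L J x * (L y)⁻¹) := by group
    _ = J * (J * D L J (L x y) * J) := by rw [h1, h2]
    _ = (J * J) * D L J (L x y) * J := by group
    _ = D L J (L x y) * J := by rw [h.JJ1, one_mul]

/-- first half of (6): the value `y / x = p⁻¹` and `y p⁻¹ = x` for `p = x \ y` -/
theorem six (h : AL G L J e) {x y : Q} (hJx : J x = x) (hxe : x ≠ e) (hJy : J y = y) :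
    L y (J ((L x)⁻¹ y)) = x := by
  set p := (L x)⁻¹ y with hp
  have hxp : L x p = y := by rw [hp, apply_inv']
  have hDx := h.D_sq x
  have hDy := h.D_sq y
  have hJJ := h.JJ1
  have hJi := h.Jinv
  have hDxJ := h.Dx_J hJx
  have hDyJ := h.Dx_J hJy
  have hDxi : (D L J x)⁻¹ = D L J x := inv_eq_of_mul_eq_one_left hDx
  obtain ⟨z, hz⟩ : ∃ z, z = D L J x * J := ⟨_, rfl⟩
  have hzz : z * z = 1 := by
    calc z * z = D L J x * (J * D L J x) * J := by rw [hz]; group
      _ = D L J x * (D L J x * J) * J := by rw [hDxJ]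
      _ = (D L J x * D L J x) * (J * J) := by group
      _ = 1 := by rw [hDx, hJJ, one_mul]
  have hzi : z⁻¹ = z := inv_eq_of_mul_eq_one_left hzz
  have hzG : z ∈ G := by rw [hz]; exact h.Z_mem (h.zx_mem hJx hxe)
  have hze : z e = e := by rw [hz]; exact h.zx_e hJx hxe
  have hzL : z * L x = L x * z := by rw [hz]; exact h.Lx_z hJx hxe
  have hRx : J * L x * J = z * L x := by rw [hz]; exact h.zt_eq hJx
  -- `kap`
  set kap := (L y)⁻¹ * L x * L p with hkap
  have hkG : kap ∈ G := G.mul_mem (G.mul_mem (G.inv_mem (h.memL y)) (h.memL x)) (h.memL p)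
  have hke : kap e = e := by
    rw [hkap, Perm.mul_apply, Perm.mul_apply, h.Le, hxp, Perm.inv_eq_iff_eq, h.Le]
  have hflex : L x (L p x) = L y x := by
    have h2 : L x ((J * L x * J) p) = (J * L x * J) (L x p) := Perm.ext_iff.1 (h.comLR x) p
    rw [h.RxJ hJx, h.RxJ hJx, hxp] at h2
    exact h2
  have hkx : kap x = x := by
    rw [hkap, Perm.mul_apply, Perm.mul_apply, hflex, inv_apply']
  have hkD : kap * D L J x = D L J x * kap := (h.D_cent hkG x).2 hkx
  -- `z p = p⁻¹`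
  have hzp : z p = J p := by
    apply h.D_inj
    rw [← h.D_conj hzG, ← h.D_J, hzi]
    have h1 : D L J p = (L x)⁻¹ * D L J y * L x := by
      have := h.D_Lmul x p
      rw [hxp] at this
      rw [← this]; group
    have hzLi : z * (L x)⁻¹ = (L x)⁻¹ * z := by
      calc z * (L x)⁻¹ = (L x)⁻¹ * (L x * z) * (L x)⁻¹ := by group
        _ = (L x)⁻¹ * (z * L x) * (L x)⁻¹ := by rw [hzL]
        _ = (L x)⁻¹ * z := by group
    have h2 : J * (L x)⁻¹ * J = (L x)⁻¹ * z := by
      have h3 : (J * L x * J)⁻¹ = J * (L x)⁻¹ * J := h.Jmulinv (L x)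
      rw [← h3, hRx, mul_inv_rev, hzi]
    have h4 : J * D L J y * J = D L J y := by rw [h.D_J, hJy]
    rw [h1]
    calc z * ((L x)⁻¹ * D L J y * L x) * z
        = (z * (L x)⁻¹) * D L J y * (L x * z) := by group
      _ = ((L x)⁻¹ * z) * D L J y * (z * L x) := by rw [hzLi, hzL]
      _ = (J * (L x)⁻¹ * J) * (J * D L J y * J) * (J * L x * J) := by rw [h2, h4, hRx]
      _ = J * (L x)⁻¹ * (J * J) * D L J y * (J * J) * L x * J := by group
      _ = J * ((L x)⁻¹ * D L J y * L x) * J := by rw [hJJ, mul_one, mul_one]; group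
  -- `R_p = D_x L_p D_x`
  have hRp : J * L (J p) * J = D L J x * L p * D L J x := by
    have h1 := h.equi z hzG hze p
    rw [hzp, hzi] at h1
    rw [← h1, hz]
    calc J * (D L J x * J * L p * (D L J x * J)) * J
        = (J * D L J x) * J * L p * D L J x * (J * J) := by group
      _ = (D L J x * J) * J * L p * D L J x := by rw [← hDxJ, hJJ, mul_one]
      _ = D L J x * (J * J) * L p * D L J x := by group
      _ = D L J x * L p * D L J x := by rw [hJJ, mul_one]
  set rho := D L J y * D L J x with hrho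
  have hrG : rho ∈ G := h.D_mul_mem y x
  have s1 := h.rho_star (y := y) hJx
  have s2 := h.rho_star' hJx hJy
  rw [← hrho] at s1 s2
  -- `L_y⁻¹ L_x` commutes with `rho`
  have hcom : (L y)⁻¹ * L x * rho = rho * ((L y)⁻¹ * L x) := by
    have h1 : L x * rho * (L x)⁻¹ = L y * rho * (L y)⁻¹ := by rw [s1, s2]
    calc (L y)⁻¹ * L x * rho = (L y)⁻¹ * (L x * rho * (L x)⁻¹) * L x := by group
      _ = (L y)⁻¹ * (L y * rho * (L y)⁻¹) * L x := by rw [h1]
      _ = rho * ((L y)⁻¹ * L x) := by group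
  -- `R_p = rho L_p`
  have hLp : L p = (L x)⁻¹ * L y * kap := by rw [hkap]; group
  have hRp2 : D L J x * L p * D L J x = rho * L p := by
    have h1 : D L J x * (L x)⁻¹ = (L x)⁻¹ * J := by
      have h2 := h.D_Lmul x x
      rw [h.LxLx hJx, h.D_e] at h2
      calc D L J x * (L x)⁻¹ = (L x)⁻¹ * (L x * D L J x * (L x)⁻¹) := by group
        _ = (L x)⁻¹ * J := by rw [h2]
    have h3 : J * (L y * D L J x * (L y)⁻¹) = L x * rho * (L x)⁻¹ := by
      rw [s1, h.D_Lmul]
      have h4 : L y x = J (L x y) := by rw [h.aaip, hJx, hJy]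
      rw [h4, ← h.D_J]
      calc J * (J * D L J (L x y) * J) = (J * J) * D L J (L x y) * J := by group
        _ = D L J (L x y) * J := by rw [hJJ, one_mul]
    calc D L J x * L p * D L J x = D L J x * (L x)⁻¹ * L y * (kap * D L J x) := by
          rw [hLp]; group
      _ = (L x)⁻¹ * J * L y * (D L J x * kap) := by rw [h1, hkD]
      _ = (L x)⁻¹ * (J * (L y * D L J x * (L y)⁻¹)) * L y * kap := by group
      _ = (L x)⁻¹ * (L x * rho * (L x)⁻¹) * L y * kap := by rw [h3]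
      _ = rho * ((L x)⁻¹ * L y * kap) := by group
      _ = rho * L p := by rw [← hLp]
  have hrho_e : rho e = e := by
    have hy : J * J = 1 := hJJ
    have h1 : rho * J = J * rho := by
      calc rho * J = D L J y * (D L J x * J) := by rw [hrho]; group
        _ = D L J y * (J * D L J x) := by rw [hDxJ]
        _ = (D L J y * J) * D L J x := by group
        _ = (J * D L J y) * D L J x := by rw [hDyJ]
        _ = J * rho := by rw [hrho]; group
    exact h.centJ hrG h1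
  have hrho_p : rho p = p := by
    have h1 : (rho * L p) e = (J * L (J p) * J) e := by rw [hRp, hRp2]
    rw [Perm.mul_apply, h.Le, h.R_apply, h.Le1, Perm.one_apply] at h1
    exact h1
  have hrL : rho * L p = L p * rho := h.comL hrG hrho_e hrho_p
  have hkr : kap * rho = rho * kap := by
    calc kap * rho = (L y)⁻¹ * L x * (L p * rho) := by rw [hkap]; group
      _ = (L y)⁻¹ * L x * (rho * L p) := by rw [hrL]
      _ = ((L y)⁻¹ * L x * rho) * L p := by group
      _ = (rho * ((L y)⁻¹ * L x)) * L p := by rw [hcom]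
      _ = rho * kap := by rw [hkap]; group
  have hky : kap y = y := by
    apply (h.D_cent hkG y).1
    have h1 : D L J y = rho * D L J x := by
      rw [hrho, mul_assoc, hDx, mul_one]
    rw [h1]
    calc kap * (rho * D L J x) = (kap * rho) * D L J x := by group
      _ = (rho * kap) * D L J x := by rw [hkr]
      _ = rho * (kap * D L J x) := by group
      _ = rho * (D L J x * kap) := by rw [hkD]
      _ = rho * D L J x * kap := by group
  have hkp : kap p = p := by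
    have h1 := h.aut hkG hke x p
    rw [hxp, hky, hkx] at h1
    apply (L x).injective
    rw [hxp, ← h1]
  have hkJ : kap (J p) = J p := by
    have h2 : kap (J p) = J (kap p) := Perm.ext_iff.1 (h.comJ kap hkG hke) p
    rw [hkp] at h2
    exact h2
  have h9 : kap (J p) = (L y)⁻¹ x := by
    rw [hkap, Perm.mul_apply, Perm.mul_apply, h.LJ, h.Le]
  rw [hkJ] at h9
  rw [h9, apply_inv']

/-- `k(y,x)` fixes `e` and `x` -/
theorem kk_fix1 (h : AL G L J e) {x y : Q} (hJx : J x = x) (hxe : x ≠ e) (hJy : J y = y) :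
    ((L y * (J * L x * J)⁻¹) ^ 2) e = e ∧ ((L y * (J * L x * J)⁻¹) ^ 2) x = x := by
  have h6 := h.six hJx hxe hJy
  have hxp : L x ((L x)⁻¹ y) = y := apply_inv' _ _
  set p := (L x)⁻¹ y with hp
  have r1 : (J * L x * J)⁻¹ e = x := by
    rw [Perm.inv_eq_iff_eq, h.RxJ hJx, h.LxLx hJx]
  have r2 : (J * L x * J)⁻¹ (L y x) = y := by
    rw [Perm.inv_eq_iff_eq, h.RxJ hJx]
  have r3 : (J * L x * J)⁻¹ x = e := by
    rw [Perm.inv_eq_iff_eq, h.RxJ hJx, h.Le1, Perm.one_apply]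
  have r4 : (J * L x * J)⁻¹ y = J p := by
    rw [Perm.inv_eq_iff_eq, h.RxJ hJx]
    have h1 := h.aaip x p
    rw [hxp, hJx, hJy] at h1
    exact h1
  constructor
  · rw [pow_two, Perm.mul_apply, Perm.mul_apply, Perm.mul_apply, r1, r2, h.LxLx hJy]
  · rw [pow_two, Perm.mul_apply, Perm.mul_apply, Perm.mul_apply, r3, h.Le, r4, h6]

theorem kk_mem (h : AL G L J e) {x y : Q} : (L y * (J * L x * J)⁻¹) ^ 2 ∈ G :=
  G.pow_mem (G.mul_mem (h.memL y) (G.inv_mem (h.JG _ (h.memL x)))) 2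

/-- `k(x,y) = k(y,x)⁻¹` -/
theorem kk_symm (h : AL G L J e) {x y : Q} (hJx : J x = x) (hxe : x ≠ e) (hJy : J y = y) :
    (L x * (J * L y * J)⁻¹) ^ 2 = ((L y * (J * L x * J)⁻¹) ^ 2)⁻¹ := by
  have h1 := (h.kk_fix1 hJx hxe hJy).1
  have h2 := h.comJ _ (h.kk_mem (x := x) (y := y)) h1
  have hJJ := h.JJ1
  set k := (L y * (J * L x * J)⁻¹) ^ 2 with hk
  have h3 : J * k * J = k := by rw [← h2, mul_assoc, hJJ, mul_one]
  have hJxi : (J * L x * J)⁻¹ = J * (L x)⁻¹ * J := h.Jmulinv (L x)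
  have hJyi : (J * L y * J)⁻¹ = J * (L y)⁻¹ * J := h.Jmulinv (L y)
  have h4 : J * k * J = ((L x * (J * L y * J)⁻¹) ^ 2)⁻¹ := by
    rw [hk, pow_two, pow_two, hJxi, hJyi, h.Jmul, h.Jmul]
    have h5 : J * (J * (L x)⁻¹ * J) * J = (L x)⁻¹ := h.JconjJ _
    rw [h5]
    have h6 : J * L y * J = (J * (L y)⁻¹ * J)⁻¹ := by rw [← hJyi, inv_inv]
    rw [h6]; group
  rw [h3] at h4
  rw [h4, inv_inv]

/-- (6): `k(y,x)` fixes `e`, `x` and `y` -/
theorem kk_fix (h : AL G L J e) {x y : Q} (hJx : J x = x) (hxe : x ≠ e) (hJy : J y = y)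
    (hye : y ≠ e) : (L y * (J * L x * J)⁻¹) ^ 2 ∈ G ∧ ((L y * (J * L x * J)⁻¹) ^ 2) e = e ∧
      ((L y * (J * L x * J)⁻¹) ^ 2) x = x ∧ ((L y * (J * L x * J)⁻¹) ^ 2) y = y := by
  obtain ⟨h1, h2⟩ := h.kk_fix1 hJx hxe hJy
  obtain ⟨h3, h4⟩ := h.kk_fix1 hJy hye hJx
  refine ⟨h.kk_mem, h1, h2, ?_⟩
  rw [h.kk_symm hJx hxe hJy, Perm.inv_eq_iff_eq] at h4
  exact h4.symm

/-- (7), first part -/
theorem kk_odd (h : AL G L J e) {x : Q} (hJx : J x = x) (hxe : x ≠ e) {c : Perm Q}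
    (hc : c ∈ Inn G e) {n : ℕ} (hn : Odd n) (hcn : c ^ n = 1)
    (hzc : D L J x * c * D L J x = c⁻¹) : (L (c x) * (J * L x * J)⁻¹) ^ 2 = 1 := by
  obtain ⟨-, -, h1⟩ := h.key_comm hJx hc hn hcn hzc
  have hDx := h.D_sq x
  have hJJ := h.JJ1
  have hDxJ := h.Dx_J hJx
  obtain ⟨z, hz⟩ : ∃ z, z = D L J x * J := ⟨_, rfl⟩
  have hzz : z * z = 1 := by
    calc z * z = D L J x * (J * D L J x) * J := by rw [hz]; group
      _ = D L J x * (D L J x * J) * J := by rw [hDxJ]
      _ = (D L J x * D L J x) * (J * J) := by group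
      _ = 1 := by rw [hDx, hJJ, one_mul]
  have hzL : z * L x = L x * z := by rw [hz]; exact h.Lx_z hJx hxe
  have hRx : J * L x * J = z * L x := by rw [hz]; exact h.zt_eq hJx
  have hcJ : c * J = J * c := h.comJ c hc.1 hc.2
  have hzcz : z * c * z = c⁻¹ := by
    calc z * c * z = D L J x * (J * c) * D L J x * J := by rw [hz]; group
      _ = D L J x * (c * J) * D L J x * J := by rw [hcJ]
      _ = D L J x * c * (J * D L J x) * J := by group
      _ = D L J x * c * (D L J x * J) * J := by rw [hDxJ]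
      _ = (D L J x * c * D L J x) * (J * J) := by group
      _ = c⁻¹ := by rw [hzc, hJJ, mul_one]
  -- `c* = L_x c L_x⁻¹`
  set cs := L x * c * (L x)⁻¹ with hcs
  have hccs : c * cs = cs * c := by
    calc c * cs = L x * (((L x)⁻¹ * c * L x) * c) * (L x)⁻¹ := by rw [hcs]; group
      _ = L x * (c * ((L x)⁻¹ * c * L x)) * (L x)⁻¹ := by rw [h1]
      _ = cs * c := by rw [hcs]; group
  have hzcs : z * cs * z = cs⁻¹ := by
    calc z * cs * z = (z * L x) * c * ((L x)⁻¹ * z) := by rw [hcs]; group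
      _ = (L x * z) * c * (L x)⁻¹ * z * (L x * (L x)⁻¹) := by rw [hzL]; group
      _ = (L x * z) * c * (L x)⁻¹ * (z * L x) * (L x)⁻¹ := by group
      _ = (L x * z) * c * (L x)⁻¹ * (L x * z) * (L x)⁻¹ := by rw [hzL]
      _ = L x * (z * c * z) * (L x)⁻¹ := by group
      _ = cs⁻¹ := by rw [hzcz, hcs]; group
  have h2 : L (c x) * (J * L x * J)⁻¹ = c * cs⁻¹ * z := by
    rw [← h.equi c hc.1 hc.2 x, hRx, hcs]
    have hzi : z⁻¹ = z := inv_eq_of_mul_eq_one_left hzz
    rw [mul_inv_rev, hzi]; group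
  have hzcsi : z * cs⁻¹ * z = cs := by
    have h3 : (z * cs * z)⁻¹ = z * cs⁻¹ * z := by
      have hzi : z⁻¹ = z := inv_eq_of_mul_eq_one_left hzz
      rw [mul_inv_rev, mul_inv_rev, hzi]; group
    rw [← h3, hzcs, inv_inv]
  rw [h2, pow_two]
  calc c * cs⁻¹ * z * (c * cs⁻¹ * z) = c * cs⁻¹ * (z * c * 1 * cs⁻¹ * z) := by group
    _ = c * cs⁻¹ * (z * c * (z * z) * cs⁻¹ * z) := by rw [hzz]
    _ = c * cs⁻¹ * ((z * c * z) * (z * cs⁻¹ * z)) := by group
    _ = c * cs⁻¹ * (c⁻¹ * cs) := by rw [hzcz, hzcsi]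
    _ = cs⁻¹ * (cs * c) * cs⁻¹ * c⁻¹ * cs := by group
    _ = cs⁻¹ * (c * cs) * cs⁻¹ * c⁻¹ * cs := by rw [hccs]
    _ = 1 := by group

/-- (7), second part -/
theorem kk_refl (h : AL G L J e) {x s : Q} (hJx : J x = x) (hxe : x ≠ e) (hJs : J s = s)
    (hse : s ≠ e) : (L ((D L J s * J) x) * (J * L x * J)⁻¹) ^ 2 = 1 := by
  have hDx := h.D_sq x
  have hDs := h.D_sq s
  have hJJ := h.JJ1
  have hDxJ := h.Dx_J hJx
  have hDsJ := h.Dx_J hJs
  have zz : ∀ {t : Q}, J t = t → (D L J t * J) * (D L J t * J) = 1 := by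
    intro t ht
    calc D L J t * J * (D L J t * J) = D L J t * (J * D L J t) * J := by group
      _ = D L J t * (D L J t * J) * J := by rw [h.Dx_J ht]
      _ = (D L J t * D L J t) * (J * J) := by group
      _ = 1 := by rw [h.D_sq, hJJ, one_mul]
  have hzz := zz hJx
  have hss := zz hJs
  have hzL : (D L J x * J) * L x = L x * (D L J x * J) := h.Lx_z hJx hxe
  have hsL : (D L J s * J) * L s = L s * (D L J s * J) := h.Lx_z hJs hse
  have hRx : J * L x * J = (D L J x * J) * L x := h.zt_eq hJx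
  have hsG : D L J s * J ∈ G := h.Z_mem (h.zx_mem hJs hse)
  have hse' : (D L J s * J) e = e := h.zx_e hJs hse
  have s1 := h.rho_star (y := s) hJx
  have s2 := h.rho_star' hJx hJs
  obtain ⟨rs, hrs⟩ : ∃ rs, rs = D L J (L x s) * J := ⟨_, rfl⟩
  rw [← hrs] at s1 s2
  obtain ⟨z, hz⟩ : ∃ z, z = D L J x * J := ⟨_, rfl⟩
  obtain ⟨w, hw⟩ : ∃ w, w = D L J s * J := ⟨_, rfl⟩
  rw [← hz] at hzz hzL hRx
  rw [← hw] at hss hsL hsG hse'
  rw [← hw]
  have hwi : w⁻¹ = w := inv_eq_of_mul_eq_one_left hss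
  have hzi : z⁻¹ = z := inv_eq_of_mul_eq_one_left hzz
  have hrho : D L J s * D L J x = w * z := by
    calc D L J s * D L J x = D L J s * (J * J) * D L J x := by rw [hJJ, mul_one]
      _ = D L J s * J * (J * D L J x) := by group
      _ = w * z := by rw [← hDxJ, hw, hz]
  rw [hrho] at s1 s2
  -- `w` inverts `rs`
  have hwrs : w * rs * w * rs = 1 := by
    have h1 : (L s)⁻¹ * w = w * (L s)⁻¹ := by
      calc (L s)⁻¹ * w = (L s)⁻¹ * (w * L s) * (L s)⁻¹ := by group
        _ = (L s)⁻¹ * (L s * w) * (L s)⁻¹ := by rw [hsL]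
        _ = w * (L s)⁻¹ := by group
    rw [← s2]
    calc w * (L s * (w * z) * (L s)⁻¹) * w * (L s * (w * z) * (L s)⁻¹)
        = (w * L s) * (w * z) * ((L s)⁻¹ * w) * (L s * (w * z) * (L s)⁻¹) := by group
      _ = (L s * w) * (w * z) * (w * (L s)⁻¹) * (L s * (w * z) * (L s)⁻¹) := by rw [hsL, h1]
      _ = L s * (w * w) * z * (w * w) * z * (L s)⁻¹ := by group
      _ = L s * (z * z) * (L s)⁻¹ := by rw [hss]; group
      _ = 1 := by rw [hzz]; group
  have h2 : L (w x) * (J * L x * J)⁻¹ = w * rs := by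
    rw [← h.equi w hsG hse' x, hRx, mul_inv_rev, hzi, hwi]
    calc w * L x * w * ((L x)⁻¹ * z) = w * (L x * (w * z) * (L x)⁻¹) * (L x * z * (L x)⁻¹ * z) := by
          calc w * L x * w * ((L x)⁻¹ * z) = w * L x * (w * 1) * ((L x)⁻¹ * z) := by group
            _ = w * L x * (w * (z * z)) * ((L x)⁻¹ * z) := by rw [hzz]
            _ = _ := by group
      _ = w * rs * (z * L x * (L x)⁻¹ * z) := by rw [s1, hzL]
      _ = w * rs * (z * z) := by group
      _ = w * rs := by rw [hzz, mul_one]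
  rw [h2, pow_two]
  calc w * rs * (w * rs) = w * rs * w * rs := by group
    _ = 1 := hwrs

end AL

end ALoop
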